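import Mathlib
import Pool.Agent.Lib.helper12.RegA

set_option autoImplicit false

namespace Pool.Agent.Results.MP_7da865_gt.Full
open Pool.Agent.Lib.helper12.Reg

/-- Bounded degree. -/
def BddDeg {V : Type} (G : SimpleGraph V) : Prop :=
  ∃ Δ : ℕ, ∀ v, (G.neighborSet v).encard ≤ Δ

/-- The graph `X` is quasi-isometric to the hyperbolic plane (upper half-plane model). -/
def QIH2 {V : Type} (X : SimpleGraph V) : Prop :=
  ∃ (φ : UpperHalfPlane → V) (K : ℝ), 1 ≤ K ∧
    (∀ z w, dist z w / K - K ≤ (X.dist (φ z) (φ w) : ℝ) ∧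
      (X.dist (φ z) (φ w) : ℝ) ≤ K * dist z w + K) ∧
    ∀ x, ∃ z, (X.dist x (φ z) : ℝ) ≤ K

/-- Subexponential growth, uniformly in the centre. -/
def SubExp {V : Type} (Y : SimpleGraph V) : Prop :=
  ∀ ε : ℝ, 0 < ε → ∃ C : ℝ, ∀ (y : V) (r : ℝ), 0 ≤ r →
    (Set.ncard {y' | (Y.dist y y' : ℝ) ≤ r} : ℝ) ≤ C * Real.exp (ε * r)

/-- Regular map from `X` to the product `T × Y` with the sum metric. -/
def Regular {U V W : Type} (X : SimpleGraph U) (T : SimpleGraph V) (Y : SimpleGraph W)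
    (f : U → V × W) : Prop :=
  ∃ κ : ℝ, 1 ≤ κ ∧
    (∀ x x', (T.dist (f x).1 (f x').1 : ℝ) + (Y.dist (f x).2 (f x').2 : ℝ) ≤
      κ * (X.dist x x' : ℝ) + κ) ∧
    ∀ z, (f ⁻¹' {z}).Finite ∧ ((f ⁻¹' {z}).ncard : ℝ) ≤ κ

lemma ball_fin {V : Type} (G : SimpleGraph V) (hG : G.Connected) (Δ : ℕ)
    (h : ∀ v, (G.neighborSet v).encard ≤ Δ) (t : V) (r : ℕ) :
    ∃ s : Finset V, s.card ≤ (Δ + 1) ^ r ∧ ∀ t', G.dist t t' ≤ r → t' ∈ s := by
  classical
  have hf : ∀ v, (G.neighborSet v).Finite := fun v => Set.finite_of_encard_le_coe (h v)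
  induction r with
  | zero => exact ⟨{t}, by simp, fun t' h => by simp [(hG.dist_eq_zero_iff.1 (by omega : G.dist t t' = 0))]⟩
  | succ r ih =>
    obtain ⟨s, h1, h2⟩ := ih
    refine ⟨s.biUnion fun v => insert v (hf v).toFinset, ?_, fun t' ht => ?_⟩
    · refine (Finset.card_biUnion_le_card_mul _ _ (Δ + 1) fun v _ => ?_).trans
        (by rw [pow_succ]; gcongr)
      refine (Finset.card_insert_le _ _).trans (Nat.succ_le_succ ?_)
      have := h v
      rw [(hf v).encard_eq_coe_toFinset_card] at this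
      exact_mod_cast this
    · obtain ⟨p, hp⟩ := hG.exists_walk_length_eq_dist t' t
      rw [SimpleGraph.dist_comm] at hp
      cases p with
      | nil => exact Finset.mem_biUnion.2 ⟨t, h2 t (by simp), by simp⟩
      | @cons _ v _ ha q =>
        have := SimpleGraph.dist_le q
        rw [SimpleGraph.dist_comm] at this
        rw [SimpleGraph.Walk.length_cons] at hp
        exact Finset.mem_biUnion.2 ⟨v, h2 v (by omega), by simp [ha.symm]⟩

lemma sep {V : Type} (T : SimpleGraph V) (hT : T.IsTree) (a b : V) (ρ : ℕ) (h0 : 0 < ρ)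
    (h : 2 * ρ < T.dist a b) : ∃ m, ∃ χ : V → Prop, χ a ∧ ¬ χ b ∧ T.dist a m = ρ ∧ ρ ≤ T.dist b m ∧
      ∀ t t', χ t → ¬ χ t' → T.dist t m ≤ T.dist t t' ∧ T.dist t' m ≤ T.dist t t' := by
  classical
  obtain ⟨P, hP, hl⟩ := hT.connected.exists_path_of_dist a b
  have h1 := SimpleGraph.dist_le (P.take ρ)
  have h2 := SimpleGraph.dist_le (P.drop ρ)
  have h3 := hT.connected.dist_triangle (u := a) (v := P.getVert ρ) (w := b)
  rw [SimpleGraph.Walk.take_length] at h1
  rw [SimpleGraph.Walk.drop_length] at h2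
  have h4 : T.dist a (P.getVert ρ) = ρ := by omega
  refine ⟨P.getVert ρ, fun t => ∃ p : T.Walk a t, P.getVert ρ ∉ p.support, ⟨.nil, fun e => ?_⟩,
    ?_, h4, by rw [SimpleGraph.dist_comm]; omega, ?_⟩
  · rw [SimpleGraph.Walk.support_nil, List.mem_singleton] at e
    rw [e] at h4; simp at h4; omega
  · rintro ⟨p, hp⟩
    have := (hT.isAcyclic.subsingleton_path a b).elim p.toPath ⟨P, hP⟩
    refine hp (p.support_toPath_subset_support ?_)
    rw [this]; exact P.getVert_mem_support ρ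
  · rintro t t' ⟨p, hp⟩ h'
    obtain ⟨q, hq⟩ := hT.connected.exists_walk_length_eq_dist t t'
    have hm : P.getVert ρ ∈ q.support := by
      by_contra hc
      exact h' ⟨p.append q, by simp [SimpleGraph.Walk.mem_support_append_iff, hp, hc]⟩
    rw [← hq]
    exact ⟨(SimpleGraph.dist_le _).trans (q.length_takeUntil_le_length hm), by
      rw [SimpleGraph.dist_comm]
      exact (SimpleGraph.dist_le _).trans (q.length_dropUntil_le_length hm)⟩

noncomputable def emb (w : List Bool) : UpperHalfPlane :=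
  ⟨⟨val w / 2 ^ w.length, 1 / 2 ^ w.length⟩, by simp⟩

lemma emb_re (w : List Bool) : (emb w).re = val w / 2 ^ w.length := rfl
lemma emb_im (w : List Bool) : (emb w).im = 1 / 2 ^ w.length := rfl

lemma le_cosh (z w : UpperHalfPlane) : dist z w ≤ Real.cosh (dist z w) :=
  (Real.self_le_sinh_iff.2 dist_nonneg).trans (Real.sinh_lt_cosh _).le

lemma emb_child (b : Bool) (w : List Bool) : dist (emb w) (emb (b :: w)) ≤ 2 := by
  refine (le_cosh _ _).trans ?_
  rw [UpperHalfPlane.cosh_dist', emb_re, emb_re, emb_im, emb_im, div_le_iff₀ (by positivity)]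
  cases b <;> simp only [val, List.length_cons, pow_succ] <;> push_cast <;> field_simp <;> norm_num

lemma emb_row (w w' : List Bool) (h : w.length = w'.length) (h' : val w' = val w + 1) :
    dist (emb w) (emb w') ≤ 2 := by
  refine (le_cosh _ _).trans ?_
  rw [UpperHalfPlane.cosh_dist', emb_re, emb_re, emb_im, emb_im, div_le_iff₀ (by positivity), h', h]
  push_cast; field_simp; norm_num

lemma emb_fib (D : ℝ) : ∃ N : ℕ, ∀ (w0 : List Bool) (s : Finset (List Bool)),
    (∀ w ∈ s, dist (emb w) (emb w0) ≤ D) → s.card ≤ N := by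
  obtain ⟨J, hJ⟩ := exists_nat_ge (2 * Real.cosh D)
  refine ⟨(2 * J + 1) * (2 * J + 3), fun w0 s hs => ?_⟩
  let c : List Bool → ℝ := fun w => val w0 * 2 ^ w.length / 2 ^ w0.length
  have := Finset.card_le_card_of_injOn (s := s)
    (t := Finset.Icc (-(J : ℤ)) J ×ˢ Finset.Icc (-(J : ℤ) - 1) (J + 1))
    (fun w => ((w.length : ℤ) - w0.length, (val w : ℤ) - ⌊c w⌋)) (fun w hw => ?_)
    (fun w _ w' _ e => ?_)
  · refine this.trans (le_of_eq ?_)
    rw [Finset.card_product, Int.card_Icc, Int.card_Icc]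
    congr 1 <;> omega
  · have h1 : Real.cosh (dist (emb w) (emb w0)) ≤ Real.cosh D :=
      Real.cosh_le_cosh.2 (by
        rw [abs_of_nonneg dist_nonneg]; exact (hs w hw).trans (le_abs_self D))
    rw [UpperHalfPlane.cosh_dist', emb_re, emb_re, emb_im, emb_im] at h1
    set x : ℝ := 2 ^ w.length with hx
    set y : ℝ := 2 ^ w0.length with hy
    have x0 : 0 < x := by positivity
    have y0 : 0 < y := by positivity
    have h2 : (val w - c w) ^ 2 * y ^ 2 + y ^ 2 + x ^ 2 ≤ J * (x * y) := by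
      have : ((val w / x - val w0 / y) ^ 2 + (1 / x) ^ 2 + (1 / y) ^ 2) / (2 * (1 / x) * (1 / y)) =
          ((val w - c w) ^ 2 * y ^ 2 + y ^ 2 + x ^ 2) / (2 * (x * y)) := by
        simp only [c, ← hx, ← hy]; field_simp
      rw [this, div_le_iff₀ (by positivity)] at h1
      nlinarith [mul_pos x0 y0]
    have h3 : x ≤ J * y := by
      have : x * x ≤ J * y * x := by nlinarith [sq_nonneg ((val w - c w) * y), sq_nonneg y]
      exact le_of_mul_le_mul_right this x0
    have h4 : y ≤ J * x := by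
      have : y * y ≤ J * x * y := by nlinarith [sq_nonneg ((val w - c w) * y), sq_nonneg x]
      exact le_of_mul_le_mul_right this y0
    have h5 : |val w - c w| ≤ J := by
      refine abs_le_of_sq_le_sq' ?_ (by positivity) |> abs_le.2
      have : J * (x * y) ≤ J * (J * y * y) := by gcongr
      have : (val w - c w) ^ 2 * y ^ 2 ≤ J ^ 2 * y ^ 2 := by nlinarith [sq_nonneg x, sq_nonneg y]
      exact le_of_mul_le_mul_right this (by positivity)
    have h6 : ∀ a b : ℕ, (2 : ℝ) ^ a ≤ J * 2 ^ b → a ≤ J + b := by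
      intro a b h
      have b1 : 2 ^ a ≤ J * 2 ^ b := by exact_mod_cast h
      have b2 : J * 2 ^ b ≤ 2 ^ (J + b) := by
        rw [pow_add]; exact Nat.mul_le_mul_right _ Nat.lt_two_pow_self.le
      exact (Nat.pow_le_pow_iff_right one_lt_two).1 (b1.trans b2)
    have h7 := h6 _ _ h3
    have h8 := h6 _ _ h4
    rw [abs_le] at h5
    have h9 : (((val w : ℤ) - ⌊c w⌋ : ℤ) : ℝ) ≤ ((J + 1 : ℤ) : ℝ) := by
      push_cast; linarith [Int.lt_floor_add_one (c w)]
    have h10 : ((-(J : ℤ) - 1 : ℤ) : ℝ) ≤ (((val w : ℤ) - ⌊c w⌋ : ℤ) : ℝ) := by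
      push_cast; linarith [Int.floor_le (c w)]
    simp only [Finset.coe_product, Set.mem_prod, Finset.coe_Icc, Set.mem_Icc]
    exact ⟨⟨by omega, by omega⟩, Int.cast_le.1 h10, Int.cast_le.1 h9⟩
  · simp only [Prod.mk.injEq] at e
    have h1 : w.length = w'.length := by omega
    have h2 : c w = c w' := by simp only [c, h1]
    rw [h2] at e
    exact val_inj _ _ h1 (by omega)

theorem result (U V W : Type) (X : SimpleGraph U) (T : SimpleGraph V) (Y : SimpleGraph W)
    (hX : X.Connected ∧ BddDeg X ∧ QIH2 X)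
    (hT : T.IsTree ∧ ∀ v, (T.neighborSet v).encard = 3)
    (hY : Y.Connected ∧ BddDeg Y ∧ SubExp Y) :
    ¬ ∃ f : U → V × W, Regular X T Y f := by
  classical
  rintro ⟨f, κ, k1, hf, hfib⟩
  obtain ⟨-, -, φ, K, K1, hφ, -⟩ := hX
  obtain ⟨hY, ⟨Δ, hΔ⟩, hse⟩ := hY
  obtain ⟨k, hk⟩ := exists_nat_ge (κ * (K * 2 + K) + κ)
  have k0 : (0 : ℝ) < k := by nlinarith
  have lip : ∀ w w', dist (emb w) (emb w') ≤ 2 →
      T.dist (f (φ (emb w))).1 (f (φ (emb w'))).1 ≤ k ∧
      Y.dist (f (φ (emb w))).2 (f (φ (emb w'))).2 ≤ k := by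
    intro w w' h
    have h1 := hf (φ (emb w)) (φ (emb w'))
    have h2 : (X.dist (φ (emb w)) (φ (emb w')) : ℝ) ≤ K * 2 + K :=
      (hφ _ _).2.trans (by gcongr)
    have h3 : κ * (X.dist (φ (emb w)) (φ (emb w')) : ℝ) ≤ κ * (K * 2 + K) := by gcongr
    have h4 : ((T.dist (f (φ (emb w))).1 (f (φ (emb w'))).1 +
      Y.dist (f (φ (emb w))).2 (f (φ (emb w'))).2 : ℕ) : ℝ) ≤ k := by push_cast; linarith
    have := Nat.cast_le.1 h4
    omega
  obtain ⟨N, hN⟩ := emb_fib (K * K)
  refine core T.dist (fun _ => SimpleGraph.dist_self) (fun _ _ => SimpleGraph.dist_comm)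
    (fun _ _ _ => hT.1.connected.dist_triangle)
    (ball_fin T hT.1.connected 3 fun v => (hT.2 v).le) (sep T hT.1)
    (fun w => (f (φ (emb w))).1) k (fun b w => (lip _ _ (emb_child b w)).1)
    (fun w w' h h' => (lip _ _ (emb_row w w' h h')).1) fun θ hθ => ?_
  obtain ⟨C, hC⟩ := hse (Real.log θ / k) (div_pos (Real.log_pos hθ) k0)
  refine ⟨(|C| + 1) * (κ * (N + 1)), by positivity, fun v R t s hs => ?_⟩
  have ly : ∀ u : List Bool, Y.dist (f (φ (emb v))).2 (f (φ (emb (u ++ v)))).2 ≤ k * u.length := by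
    intro u
    induction u with
    | nil => simp
    | cons b u ih =>
      have := hY.dist_triangle (u := (f (φ (emb v))).2) (v := (f (φ (emb (u ++ v)))).2)
        (w := (f (φ (emb (b :: (u ++ v))))).2)
      have := (lip _ _ (emb_child b (u ++ v))).2
      simp only [List.cons_append, List.length_cons, mul_add]; omega
  have hB : {y' | (Y.dist (f (φ (emb v))).2 y' : ℝ) ≤ (k * R : ℕ)}.Finite := by
    obtain ⟨B, -, hB⟩ := ball_fin Y hY Δ hΔ (f (φ (emb v))).2 (k * R)
    exact B.finite_toSet.subset fun y hy => hB y (Nat.cast_le.1 (show (_ : ℝ) ≤ _ from hy))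
  have h1 := hC (f (φ (emb v))).2 (k * R : ℕ) (by positivity)
  rw [Set.ncard_eq_toFinset_card _ hB, show Real.log θ / k * (k * R : ℕ) = R * Real.log θ by
    push_cast; field_simp, Real.exp_nat_mul, Real.exp_log (by linarith)] at h1
  have h2 : ∀ y, ((s.filter fun u => (f (φ (emb (u ++ v)))).2 = y).card : ℝ) ≤ κ * (N + 1) := by
    intro y
    rw [Finset.card_eq_sum_card_fiberwise (f := fun u => φ (emb (u ++ v)))
      (t := (hfib (t, y)).1.toFinset) fun u hu => by
        have := Finset.mem_filter.1 hu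
        simp [Prod.ext_iff, this.2, (hs u this.1).2], Nat.cast_sum]
    refine (Finset.sum_le_card_nsmul _ _ (N + 1 : ℝ) fun x _ => ?_).trans ?_
    · set A := (s.filter fun u => (f (φ (emb (u ++ v)))).2 = y).filter
        fun u => φ (emb (u ++ v)) = x
      rcases A.eq_empty_or_nonempty with e | ⟨u0, hu0⟩
      · rw [e]; simp; positivity
      · have := hN (u0 ++ v) (A.image (· ++ v)) fun w hw => by
          obtain ⟨u, hu, rfl⟩ := Finset.mem_image.1 hw
          have := (hφ (emb (u ++ v)) (emb (u0 ++ v))).1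
          rw [(Finset.mem_filter.1 hu).2, (Finset.mem_filter.1 hu0).2, SimpleGraph.dist_self,
            Nat.cast_zero, sub_nonpos, div_le_iff₀ (by linarith)] at this
          exact this
        rw [Finset.card_image_of_injective _ (List.append_left_injective v)] at this
        exact_mod_cast this.trans (Nat.le_succ _)
    · rw [nsmul_eq_mul, ← Set.ncard_eq_toFinset_card _ (hfib (t, y)).1]
      gcongr
      exact (hfib (t, y)).2
  rw [Finset.card_eq_sum_card_fiberwise (f := fun u => (f (φ (emb (u ++ v)))).2)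
    (t := hB.toFinset) fun u hu => by
      have := (ly u).trans (Nat.mul_le_mul_left k (hs u hu).1)
      simpa using (by exact_mod_cast this :
        (Y.dist (f (φ (emb v))).2 (f (φ (emb (u ++ v)))).2 : ℝ) ≤ k * R), Nat.cast_sum]
  refine (Finset.sum_le_card_nsmul _ _ _ fun y _ => h2 y).trans ?_
  rw [nsmul_eq_mul, mul_right_comm]
  have : C * θ ^ R ≤ (|C| + 1) * θ ^ R := by
    gcongr; linarith [le_abs_self C]
  gcongr
  linarith

end Pool.Agent.Results.MP_7da865_gt.Full
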